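import Mathlib

namespace Pool.Agent.Results.MP_5e9a16_gt.ToddDense

open Set Topology Filter TopologicalSpace Uniformity

/-- A sequence of sets is nested if `cl B (n+1) ⊆ int B n`. -/
def Nested {X : Type*} [TopologicalSpace X] (B : ℕ → Set X) : Prop :=
  ∀ n, closure (B (n + 1)) ⊆ interior (B n)

/-- Pseudobase. -/
def IsPseudobase {X : Type*} [TopologicalSpace X] (𝓑 : Set (Set X)) : Prop :=
  (∀ B ∈ 𝓑, (interior B).Nonempty) ∧
    ∀ U : Set X, IsOpen U → U.Nonempty → ∃ B ∈ 𝓑, B ⊆ U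

/-- Complete sequence of families. -/
def IsCompleteSeq {X : Type*} [TopologicalSpace X] (𝓑 : ℕ → Set (Set X)) : Prop :=
  (∀ n, IsPseudobase (𝓑 n)) ∧
    ∀ B : ℕ → Set X, (∀ n, B n ∈ 𝓑 n) → Nested B → (⋂ n, B n).Nonempty

/-- Todd pseudocompleteness. -/
def ToddPseudocomplete (X : Type*) [TopologicalSpace X] : Prop :=
  ∃ 𝓑 : ℕ → Set (Set X), IsCompleteSeq 𝓑

/-- Čech-completeness: `X` is a `G_δ` subset of its Stone-Čech compactification. -/
def CechComplete (X : Type*) [TopologicalSpace X] : Prop :=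
  IsGδ (range (stoneCechUnit : X → StoneCech X))

theorem cechComplete_of_metric (X : Type*) [MetricSpace X] [CompleteSpace X] :
    CechComplete X := by
  let O : ℕ → Set (StoneCech X) := fun n =>
    ⋃₀ {W | IsOpen W ∧ ∀ x y : X, stoneCechUnit x ∈ W → stoneCechUnit y ∈ W →
      dist x y < 1 / ((n : ℝ) + 1)}
  have hO : ∀ n, IsOpen (O n) := fun n => isOpen_sUnion fun W hW => hW.1
  have : range (stoneCechUnit : X → StoneCech X) = ⋂ n, O n := by
    apply Subset.antisymm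
    · rintro _ ⟨x, rfl⟩
      rw [mem_iInter]
      intro n
      have hpos : (0 : ℝ) < 1 / ((n : ℝ) + 1) / 2 := by positivity
      have h1 : Metric.ball x (1 / ((n : ℝ) + 1) / 2) ∈ 𝓝 x := Metric.ball_mem_nhds x hpos
      rw [(isInducing_stoneCechUnit (X := X)).nhds_eq_comap, mem_comap] at h1
      obtain ⟨t, ht, hts⟩ := h1
      obtain ⟨W, hWt, hWo, hxW⟩ := mem_nhds_iff.1 ht
      refine ⟨W, ⟨hWo, ?_⟩, hxW⟩
      intro y z hy hz
      have h2 := hts (show y ∈ stoneCechUnit ⁻¹' t from hWt hy)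
      have h3 := hts (show z ∈ stoneCechUnit ⁻¹' t from hWt hz)
      rw [Metric.mem_ball] at h2 h3
      calc dist y z ≤ dist y x + dist z x := dist_triangle_right _ _ _
        _ < 1 / ((n : ℝ) + 1) := by linarith
    · intro p hp
      rw [mem_iInter] at hp
      have hne : NeBot (comap (stoneCechUnit : X → StoneCech X) (𝓝 p)) :=
        (isDenseInducing_stoneCechUnit (X := X)).comap_nhds_neBot p
      have hC : Cauchy (comap (stoneCechUnit : X → StoneCech X) (𝓝 p)) := by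
        rw [Metric.cauchy_iff]
        refine ⟨hne, fun ε hε => ?_⟩
        obtain ⟨n, hn⟩ := exists_nat_one_div_lt hε
        obtain ⟨W, ⟨hWo, hW⟩, hpW⟩ := hp n
        refine ⟨stoneCechUnit ⁻¹' W, preimage_mem_comap (hWo.mem_nhds hpW), ?_⟩
        intro x hx y hy
        exact (hW x y hx hy).trans hn
      obtain ⟨x, hx⟩ := CompleteSpace.complete hC
      refine ⟨x, ?_⟩
      have h1 : Tendsto (stoneCechUnit : X → StoneCech X) (comap stoneCechUnit (𝓝 p))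
          (𝓝 p) := tendsto_comap
      have h2 : Tendsto (stoneCechUnit : X → StoneCech X) (comap stoneCechUnit (𝓝 p))
          (𝓝 (stoneCechUnit x)) := (continuous_stoneCechUnit.tendsto x).mono_left hx
      exact tendsto_nhds_unique h2 h1
  unfold CechComplete
  rw [this]
  exact IsGδ.iInter_of_isOpen hO

section group

variable {H : Type*} [Group H] [MetricSpace H] [IsTopologicalGroup H]

theorem swap (x : ℕ → H)
    (hx : ∀ N ∈ 𝓝 (1 : H), ∃ k, ∀ m ≥ k, ∀ l ≥ k, (x m)⁻¹ * x l ∈ N)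
    {P Q : Set H} (hP : IsOpen P) (hQ : IsOpen Q) (hQn : Q.Nonempty) {k : ℕ}
    (h : ∀ m ≥ k, ∀ q ∈ Q, x m * q ∈ P) {ε : ℝ} (hε : 0 < ε) :
    ∃ P' ⊆ P, IsOpen P' ∧ P'.Nonempty ∧ (∃ k', ∀ m ≥ k', ∀ p ∈ P', (x m)⁻¹ * p ∈ Q) ∧
      (∀ a ∈ P', ∀ b ∈ P', dist a b < ε) := by
  obtain ⟨q, hq⟩ := hQn
  have hN : {h : H | h * q ∈ Q} ∈ 𝓝 (1 : H) := by
    have : ContinuousAt (fun h : H => h * q) 1 := by fun_prop
    exact this.preimage_mem_nhds (by simpa using hQ.mem_nhds hq)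
  obtain ⟨N, hNo, h1N, hNN⟩ := exists_open_nhds_one_mul_subset hN
  obtain ⟨k0, hk0⟩ := hx N (hNo.mem_nhds h1N)
  set K := max k k0 with hK
  set p := x K * q with hp
  have hpP : p ∈ P := h K (le_max_left _ _) q hq
  refine ⟨P ∩ {h | (x K)⁻¹ * h * q⁻¹ ∈ N} ∩ Metric.ball p (ε / 2), ?_, ?_, ?_, ?_, ?_⟩
  · exact fun y hy => hy.1.1
  · refine (hP.inter ?_).inter Metric.isOpen_ball
    exact hNo.preimage (by fun_prop)
  · refine ⟨p, ⟨hpP, ?_⟩, Metric.mem_ball_self (by linarith)⟩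
    show (x K)⁻¹ * p * q⁻¹ ∈ N
    simpa [hp] using h1N
  · refine ⟨K, fun m hm y hy => ?_⟩
    have h1 : (x m)⁻¹ * x K ∈ N := hk0 m ((le_max_right _ _).trans hm) K (le_max_right _ _)
    have h2 : (x K)⁻¹ * y * q⁻¹ ∈ N := hy.1.2
    have h3 := hNN (mul_mem_mul h1 h2)
    have h4 : (x m)⁻¹ * x K * ((x K)⁻¹ * y * q⁻¹) * q ∈ Q := h3
    simpa [mul_assoc] using h4
  · intro a ha b hb
    have h1 := ha.2
    have h2 := hb.2
    rw [Metric.mem_ball] at h1 h2
    calc dist a b ≤ dist a p + dist b p := dist_triangle_right _ _ _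
      _ < ε := by linarith

end group

/-- The main lemma. -/
theorem key {G H : Type*} [TopologicalSpace G] [RegularSpace G] [Nonempty G]
    (hT : ToddPseudocomplete G) [Group H] [MetricSpace H] [IsTopologicalGroup H]
    (π : G → H) (hπ : Continuous π)
    (hop : ∀ U : Set G, IsOpen U → U.Nonempty → ∃ P : Set H, IsOpen P ∧ P.Nonempty ∧
      P ⊆ closure (π '' U))
    (x : ℕ → H)
    (hx1 : ∀ W ∈ 𝓝 (1 : H), ∃ k, ∀ m ≥ k, ∀ l ≥ k, x m * (x l)⁻¹ ∈ W)
    (hx2 : ∀ W ∈ 𝓝 (1 : H), ∃ k, ∀ m ≥ k, ∀ l ≥ k, (x m)⁻¹ * x l ∈ W)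
    (hdense : Dense (range π)) :
    ∃ h, Tendsto x atTop (𝓝 h) := by
  classical
  obtain ⟨𝓑, h𝓑, hcomp⟩ := hT
  -- refine inside an open set
  have hstep : ∀ n, ∀ U : Set G, IsOpen U → U.Nonempty → ∃ A ∈ 𝓑 n, closure A ⊆ U := by
    intro n U hU hUn
    obtain ⟨u, hu⟩ := hUn
    obtain ⟨C, hC, hCc, hCU⟩ := exists_mem_nhds_isClosed_subset (hU.mem_nhds hu)
    have hne : (interior C).Nonempty := ⟨u, mem_interior_iff_mem_nhds.2 hC⟩
    obtain ⟨A, hA, hAC⟩ := (h𝓑 n).2 _ isOpen_interior hne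
    exact ⟨A, hA, (closure_minimal (hAC.trans interior_subset) hCc).trans hCU⟩
  have hstep2 : ∀ n, ∀ U : Set G, IsOpen U → ∀ P : Set H, IsOpen P → P.Nonempty →
      P ⊆ closure (π '' U) → ∃ A ∈ 𝓑 n, closure A ⊆ U ∧ closure A ⊆ π ⁻¹' P ∧
        ∃ P' ⊆ P, IsOpen P' ∧ P'.Nonempty ∧ P' ⊆ closure (π '' interior A) := by
    intro n U hU P hP hPn hPU
    obtain ⟨p, hp⟩ := hPn
    obtain ⟨_, hg, ⟨g, hgU, rfl⟩⟩ := mem_closure_iff.1 (hPU hp) P hP hp
    obtain ⟨A, hA, hAc⟩ := hstep n (U ∩ π ⁻¹' P) (hU.inter (hP.preimage hπ)) ⟨g, hgU, hg⟩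
    refine ⟨A, hA, hAc.trans inter_subset_left, hAc.trans inter_subset_right, ?_⟩
    obtain ⟨P1, hP1o, ⟨p1, hp1⟩, hP1⟩ := hop (interior A) isOpen_interior ((h𝓑 n).1 A hA)
    refine ⟨P1 ∩ P, inter_subset_right, hP1o.inter hP, ?_, inter_subset_left.trans hP1⟩
    obtain ⟨_, hg', ⟨g', hg'A, rfl⟩⟩ := mem_closure_iff.1 (hP1 hp1) P1 hP1o hp1
    refine ⟨π g', hg', ?_⟩
    have := hAc (subset_closure (interior_subset hg'A))
    exact this.2
  -- the state
  let S := (Set G × Set G) × (Set H × Set H)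
  let Good : ℕ → S → Prop := fun n s =>
    s.1.1 ∈ 𝓑 n ∧ s.1.2 ∈ 𝓑 n ∧ IsOpen s.2.1 ∧ IsOpen s.2.2 ∧ s.2.2.Nonempty ∧
    s.2.1 ⊆ closure (π '' interior s.1.1) ∧ s.2.2 ⊆ closure (π '' interior s.1.2) ∧
    ∃ k, ∀ m ≥ k, ∀ q ∈ s.2.2, x m * q ∈ s.2.1
  have hnext : ∀ n, ∀ s : S, Good n s → ∃ s' : S, Good (n + 1) s' ∧
      closure s'.1.1 ⊆ interior s.1.1 ∧ closure s'.1.2 ⊆ interior s.1.2 ∧
      ∃ k, ∀ m ≥ k, ∀ a ∈ s'.1.1, ∀ b ∈ s'.1.2, dist (x m * π b) (π a) < 1 / ((n : ℝ) + 1) := by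
    rintro n ⟨⟨A, B⟩, ⟨P, Q⟩⟩ ⟨hA, hB, hP, hQ, hQn, hPA, hQB, k, hk⟩
    simp only at hA hB hP hQ hQn hPA hQB hk
    obtain ⟨P', hP'P, hP'o, hP'n, ⟨k', hk'⟩, hP'd⟩ := swap x hx2 hP hQ hQn hk
      (show (0 : ℝ) < 1 / ((n : ℝ) + 1) by positivity)
    obtain ⟨A', hA', hA'A, hA'P, P3, hP3, hP3o, hP3n, hP3A⟩ :=
      hstep2 (n + 1) (interior A) isOpen_interior P' hP'o hP'n (hP'P.trans hPA)
    obtain ⟨Q', hQ'Q, hQ'o, hQ'n, ⟨k1, hk1⟩, -⟩ := swap (fun m => (x m)⁻¹)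
      (by simpa using hx1) hQ hP3o hP3n (k := k') (fun m hm q hq => hk' m hm q (hP3 hq))
      (show (0 : ℝ) < 1 / ((n : ℝ) + 1) by positivity)
    obtain ⟨B', hB', hB'B, hB'Q, Q3, hQ3, hQ3o, hQ3n, hQ3B⟩ :=
      hstep2 (n + 1) (interior B) isOpen_interior Q' hQ'o hQ'n (hQ'Q.trans hQB)
    refine ⟨⟨⟨A', B'⟩, ⟨P3, Q3⟩⟩, ⟨hA', hB', hP3o, hQ3o, hQ3n, hP3A, hQ3B, k1, ?_⟩,
      hA'A, hB'B, k1, ?_⟩
    · intro m hm q hq
      simpa using hk1 m hm q (hQ3 hq)
    · intro m hm a ha b hb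
      apply hP'd
      · have := hk1 m hm (π b) (hB'Q (subset_closure hb))
        apply hP3
        simpa using this
      · exact hA'P (subset_closure ha)
  -- initial state
  have hinit : ∃ s : S, Good 0 s := by
    obtain ⟨A, hA, -⟩ := hstep 0 univ isOpen_univ univ_nonempty
    obtain ⟨P, hPo, hPn, hPA⟩ := hop (interior A) isOpen_interior ((h𝓑 0).1 A hA)
    obtain ⟨Q', -, hQ'o, hQ'n, ⟨k1, hk1⟩, -⟩ := swap (fun m => (x m)⁻¹)
      (by simpa using hx1) (P := univ) isOpen_univ hPo hPn (k := 0)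
      (fun m hm q hq => mem_univ _) (show (0 : ℝ) < 1 by positivity)
    obtain ⟨B', hB', hB'B, hB'Q, Q3, hQ3, hQ3o, hQ3n, hQ3B⟩ :=
      hstep2 0 univ isOpen_univ Q' hQ'o hQ'n (by
        rw [image_univ, hdense.closure_eq]; exact subset_univ _)
    refine ⟨⟨⟨A, B'⟩, ⟨P, Q3⟩⟩, hA, hB', hPo, hQ3o, hQ3n, hPA, hQ3B, k1, ?_⟩
    intro m hm q hq
    simpa using hk1 m hm q (hQ3 hq)
  obtain ⟨s0, hs0⟩ := hinit
  choose! nxt hnxt using hnext
  let s : ℕ → S := fun n => Nat.rec s0 (fun n t => nxt n t) n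
  have hs : ∀ n, Good n (s n) := by
    intro n
    induction n with
    | zero => exact hs0
    | succ n ih => exact (hnxt n (s n) ih).1
  have hA : (⋂ n, (s n).1.1).Nonempty :=
    hcomp (fun n => (s n).1.1) (fun n => (hs n).1) (fun n => (hnxt n (s n) (hs n)).2.1)
  have hB : (⋂ n, (s n).1.2).Nonempty :=
    hcomp (fun n => (s n).1.2) (fun n => (hs n).2.1) (fun n => (hnxt n (s n) (hs n)).2.2.1)
  obtain ⟨a, ha⟩ := hA
  obtain ⟨b, hb⟩ := hB
  rw [mem_iInter] at ha hb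
  have hlim : Tendsto (fun m => x m * π b) atTop (𝓝 (π a)) := by
    rw [Metric.tendsto_atTop]
    intro ε hε
    obtain ⟨n, hn⟩ := exists_nat_one_div_lt hε
    obtain ⟨k, hk⟩ := (hnxt n (s n) (hs n)).2.2.2
    exact ⟨k, fun m hm => (hk m hm a (ha (n + 1)) b (hb (n + 1))).trans hn⟩
  refine ⟨π a * (π b)⁻¹, ?_⟩
  have := hlim.mul_const (π b)⁻¹
  simpa using this

/-- A metrizable group in which two-sided Cauchy sequences converge is completely metrizable. -/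
theorem completelyMetrizable_of_twoSided (H : Type*) [Group H] [tH : TopologicalSpace H]
    [IsTopologicalGroup H] [MetrizableSpace H]
    (hc : ∀ x : ℕ → H, (∀ W ∈ 𝓝 (1 : H), ∃ k, ∀ m ≥ k, ∀ l ≥ k, x m * (x l)⁻¹ ∈ W) →
      (∀ W ∈ 𝓝 (1 : H), ∃ k, ∀ m ≥ k, ∀ l ≥ k, (x m)⁻¹ * x l ∈ W) →
      ∃ h, Tendsto x atTop (𝓝 h)) : IsCompletelyMetrizableSpace H := by
  let uR : UniformSpace H := IsTopologicalGroup.rightUniformSpace H
  let uL : UniformSpace H := IsTopologicalGroup.leftUniformSpace H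
  let u0 : UniformSpace H := uR ⊓ uL
  have htop : u0.toTopologicalSpace = tH := by
    show uR.toTopologicalSpace ⊓ uL.toTopologicalSpace = tH
    show tH ⊓ tH = tH
    exact inf_idem _
  let u : UniformSpace H := u0.replaceTopology htop.symm
  have hun : @uniformity H u = comap (fun x : H × H ↦ x.2 * x.1⁻¹) (𝓝 1) ⊓
      comap (fun x : H × H ↦ x.1⁻¹ * x.2) (𝓝 1) := rfl
  have hcg : (@uniformity H u).IsCountablyGenerated := by
    rw [hun]; infer_instance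
  have hcompl : @CompleteSpace H u := by
    letI := u
    refine UniformSpace.complete_of_cauchySeq_tendsto fun x hx => hc x ?_ ?_
    · intro W hW
      have h1 : (fun x : H × H ↦ x.2 * x.1⁻¹) ⁻¹' W ∈ @uniformity H u := by
        rw [hun]; exact mem_inf_of_left (preimage_mem_comap hW)
      obtain ⟨k, hk⟩ := (cauchySeq_iff).1 hx _ h1
      exact ⟨k, fun m hm l hl => hk l hl m hm⟩
    · intro W hW
      have h1 : (fun x : H × H ↦ x.1⁻¹ * x.2) ⁻¹' W ∈ @uniformity H u := by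
        rw [hun]; exact mem_inf_of_right (preimage_mem_comap hW)
      obtain ⟨k, hk⟩ := (cauchySeq_iff).1 hx _ h1
      exact ⟨k, fun m hm l hl => hk m hm l hl⟩
  letI := u
  exact IsCompletelyMetrizableSpace.of_completeSpace_metrizable

/-- Let `H i` be separable metrizable groups and `G` a dense subgroup of `∏ i, H i`.  If `G` is
Todd pseudocomplete then every `H i` is Čech-complete (hence Polish). -/
theorem result {I : Type*} (H : I → Type*) [∀ i, Group (H i)] [∀ i, TopologicalSpace (H i)]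
    [∀ i, IsTopologicalGroup (H i)] [∀ i, MetrizableSpace (H i)] [∀ i, SeparableSpace (H i)]
    (G : Subgroup (∀ i, H i)) (hG : Dense (G : Set (∀ i, H i)))
    (hT : ToddPseudocomplete G) : ∀ i, CechComplete (H i) ∧ PolishSpace (H i) := by
  intro j
  classical
  have hcm : IsCompletelyMetrizableSpace (H j) := by
    apply completelyMetrizable_of_twoSided
    intro x hx1 hx2
    letI : MetricSpace (H j) := metrizableSpaceMetric (H j)
    have hsurj : DenseRange (fun g : G => (g : ∀ i, H i) j) := by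
      have h1 : DenseRange (fun g : G => (g : ∀ i, H i)) := by
        rw [DenseRange, Subtype.range_coe_subtype]; exact hG
      exact (Function.surjective_eval j).denseRange.comp h1 (continuous_apply j)
    refine key (G := G) hT (fun g : G => (g : ∀ i, H i) j)
      ((continuous_apply j).comp continuous_subtype_val) ?_ x hx1 hx2 hsurj
    rintro U ⟨O, hO, rfl⟩ ⟨g, hg⟩
    refine ⟨(fun f : ∀ i, H i => f j) '' O, isOpenMap_eval j O hO, ⟨_, mem_image_of_mem _ hg⟩, ?_⟩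
    rintro _ ⟨f, hf, rfl⟩
    rw [mem_closure_iff]
    intro V hV hfV
    obtain ⟨f', hf', hf'G⟩ := hG.inter_open_nonempty (O ∩ (fun f : ∀ i, H i => f j) ⁻¹' V)
      (hO.inter (hV.preimage (continuous_apply j))) ⟨f, hf, hfV⟩
    exact ⟨f' j, hf'.2, ⟨⟨f', hf'G⟩, hf'.1, rfl⟩⟩
  constructor
  · letI := upgradeIsCompletelyMetrizable (H j)
    exact cechComplete_of_metric (H j)
  · infer_instance

end Pool.Agent.Results.MP_5e9a16_gt.ToddDense
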